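import Pool.Agent.Hhelper95.Sg

/-!
# Weighted spectral theorem and two trace inequalities
-/

open Finset

namespace Pool.Agent.Hhelper95.Spectral

open Sg

variable {S : Type*} [Fintype S]

/-- Weighted inner product. -/
def ip (w : S → ℝ) (f g : S → ℝ) : ℝ := ∑ i, w i * (f i * g i)

lemma ip_comm (w f g : S → ℝ) : ip w f g = ip w g f := by
  unfold ip; exact Finset.sum_congr rfl fun i _ => by ring

lemma ip_add_right (w f g h : S → ℝ) : ip w f (g + h) = ip w f g + ip w f h := by
  unfold ip; rw [← Finset.sum_add_distrib]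
  exact Finset.sum_congr rfl fun i _ => by simp only [Pi.add_apply]; ring

lemma ip_smul_right (w f g : S → ℝ) (a : ℝ) : ip w f (a • g) = a * ip w f g := by
  unfold ip; rw [Finset.mul_sum]
  exact Finset.sum_congr rfl fun i _ => by simp only [Pi.smul_apply, smul_eq_mul]; ring

lemma ip_sum_right {ι : Type*} (s : Finset ι) (w f : S → ℝ) (g : ι → S → ℝ) :
    ip w f (∑ k ∈ s, g k) = ∑ k ∈ s, ip w f (g k) := by
  unfold ip
  rw [Finset.sum_comm]
  exact Finset.sum_congr rfl fun i _ => by
    rw [Finset.sum_apply, Finset.mul_sum, Finset.mul_sum]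

/-- Weighted spectral theorem. -/
theorem spectral [DecidableEq S] (w : S → ℝ) (hw : ∀ i, 0 < w i) (T : (S → ℝ) →ₗ[ℝ] (S → ℝ))
    (hT : ∀ f g, ip w (T f) g = ip w f (T g)) :
    ∃ (n : ℕ) (b : Fin n → S → ℝ) (l : Fin n → ℝ), (∀ i, T (b i) = l i • b i) ∧
      (∀ i j, ip w (b i) (b j) = if i = j then 1 else 0) ∧
      ∀ f, f = ∑ i, ip w (b i) f • b i := by
  classical
  set r : S → ℝ := fun i => Real.sqrt (w i) with hr
  have hr0 : ∀ i, r i ≠ 0 := fun i => (Real.sqrt_pos.mpr (hw i)).ne'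
  have hrr : ∀ i, r i * r i = w i := fun i => Real.mul_self_sqrt (hw i).le
  -- the conjugating equivalence
  let U : (S → ℝ) →ₗ[ℝ] EuclideanSpace ℝ S :=
    { toFun := fun f => WithLp.toLp 2 (fun i => r i * f i)
      map_add' := fun f g => by ext i; simp [mul_add]
      map_smul' := fun a f => by ext i; simp; ring }
  let W : EuclideanSpace ℝ S →ₗ[ℝ] (S → ℝ) :=
    { toFun := fun g i => (r i)⁻¹ * g i
      map_add' := fun f g => by ext i; simp [mul_add]
      map_smul' := fun a f => by ext i; simp; ring }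
  have hWU : ∀ f, W (U f) = f := fun f => by
    ext i; simp only [U, W, LinearMap.coe_mk, AddHom.coe_mk]
    rw [← mul_assoc, inv_mul_cancel₀ (hr0 i), one_mul]
  have hUW : ∀ g, U (W g) = g := fun g => by
    ext i; simp only [U, W, LinearMap.coe_mk, AddHom.coe_mk]
    rw [← mul_assoc, mul_inv_cancel₀ (hr0 i), one_mul]
  have hin : ∀ f g, inner ℝ (U f) (U g) = ip w f g := fun f g => by
    rw [PiLp.inner_apply]
    unfold ip
    refine Finset.sum_congr rfl fun i _ => ?_
    simp only [U, LinearMap.coe_mk, AddHom.coe_mk, RCLike.inner_apply, conj_trivial]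
    rw [← hrr i]; ring
  let T' : EuclideanSpace ℝ S →ₗ[ℝ] EuclideanSpace ℝ S := U ∘ₗ T ∘ₗ W
  have hT' : T'.IsSymmetric := by
    intro f g
    have h1 := hT (W f) (W g)
    rw [← hin, ← hin, hUW, hUW] at h1
    exact h1
  have hn : Module.finrank ℝ (EuclideanSpace ℝ S) = Fintype.card S := finrank_euclideanSpace
  let eb := hT'.eigenvectorBasis hn
  refine ⟨Fintype.card S, fun i => W (eb i), fun i => hT'.eigenvalues hn i, fun i => ?_, fun i j => ?_, fun f => ?_⟩
  · have h1 := hT'.apply_eigenvectorBasis hn i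
    have h2 : W (T' (eb i)) = T (W (eb i)) := hWU _
    rw [← h2]
    change W (T' (hT'.eigenvectorBasis hn i)) = _
    rw [h1, map_smul]
    rfl
  · rw [← hin, hUW, hUW]
    exact orthonormal_iff_ite.mp eb.orthonormal i j
  · have h1 := eb.sum_repr' (U f)
    have h2 := congrArg W h1
    rw [hWU, map_sum] at h2
    calc f = ∑ i, W (inner ℝ (eb i) (U f) • eb i) := h2.symm
      _ = _ := by
        refine Finset.sum_congr rfl fun i _ => ?_
        rw [map_smul, ← hin, hUW]

section data

variable {n : ℕ} {w : S → ℝ} {b : Fin n → S → ℝ} {l : Fin n → ℝ} {T : (S → ℝ) →ₗ[ℝ] (S → ℝ)}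

lemma parseval (hc : ∀ f, f = ∑ i, ip w (b i) f • b i) (f g : S → ℝ) :
    ip w f g = ∑ i, ip w (b i) f * ip w (b i) g := by
  have h : ip w g f = ∑ i, ip w (b i) f * ip w g (b i) := by
    conv_lhs => rw [hc f]
    rw [ip_sum_right]
    exact Finset.sum_congr rfl fun i _ => ip_smul_right _ _ _ _
  rw [ip_comm, h]
  exact Finset.sum_congr rfl fun i _ => by rw [ip_comm w g]

lemma quad_spec (hc : ∀ f, f = ∑ i, ip w (b i) f • b i) (hT : ∀ i, T (b i) = l i • b i) (f : S → ℝ) :
    ip w f (T f) = ∑ i, l i * (ip w (b i) f) ^ 2 := by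
  have h : T f = ∑ i, (ip w (b i) f * l i) • b i := by
    conv_lhs => rw [hc f]
    rw [map_sum]
    exact Finset.sum_congr rfl fun i _ => by rw [map_smul, hT, smul_smul]
  rw [h, ip_sum_right]
  refine Finset.sum_congr rfl fun i _ => ?_
  rw [ip_smul_right, ip_comm w f]; ring

lemma sg_spec (A : (S → ℝ) →L[ℝ] (S → ℝ)) (hA : ∀ f, A f = - T f)
    (hc : ∀ f, f = ∑ i, ip w (b i) f • b i) (hT : ∀ i, T (b i) = l i • b i) (t : ℝ) (f : S → ℝ) :
    sg A t f = ∑ i, (ip w (b i) f * Real.exp (-(t * l i))) • b i := by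
  conv_lhs => rw [hc f]
  rw [map_sum]
  refine Finset.sum_congr rfl fun i _ => ?_
  have h1 : A (b i) = (-(l i)) • b i := by rw [hA, hT, neg_smul]
  rw [map_smul, sg_eigen A h1, smul_smul]
  congr 3
  ring

lemma ip_sg_spec (A : (S → ℝ) →L[ℝ] (S → ℝ)) (hA : ∀ f, A f = - T f)
    (hc : ∀ f, f = ∑ i, ip w (b i) f • b i) (hT : ∀ i, T (b i) = l i • b i) (t : ℝ) (f : S → ℝ) :
    ip w f (sg A t f) = ∑ i, Real.exp (-(t * l i)) * (ip w (b i) f) ^ 2 := by
  rw [sg_spec A hA hc hT, ip_sum_right]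
  refine Finset.sum_congr rfl fun i _ => ?_
  rw [ip_smul_right, ip_comm w f]; ring

lemma eigen_quad (ho : ∀ i j, ip w (b i) (b j) = if i = j then 1 else 0)
    (hT : ∀ i, T (b i) = l i • b i) (i : Fin n) : ip w (b i) (T (b i)) = l i := by
  rw [hT, ip_smul_right, ho, if_pos rfl, mul_one]

end data

/-- Abstract Berezin inequality. -/
lemma berezin {I J : Type*} [Fintype I] [Fintype J] (m : I → J → ℝ) (hm : ∀ i j, 0 ≤ m i j)
    (hm1 : ∀ j, ∑ i, m i j = 1) (l : I → ℝ) (a : J → ℝ) (ha : ∀ j, ∑ i, l i * m i j = a j) (t : ℝ) :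
    ∑ j, Real.exp (-(t * a j)) ≤ ∑ i, Real.exp (-(t * l i)) * ∑ j, m i j := by
  simp_rw [Finset.mul_sum]
  rw [Finset.sum_comm]
  refine Finset.sum_le_sum fun j _ => ?_
  have h := convexOn_exp.map_sum_le (t := Finset.univ) (w := fun i => m i j) (p := fun i => -(t * l i))
    (fun i _ => hm i j) (hm1 j) (fun i _ => Set.mem_univ _)
  simp only [smul_eq_mul] at h
  have e : ∑ i, m i j * -(t * l i) = -(t * a j) := by
    rw [← ha j, Finset.mul_sum, ← Finset.sum_neg_distrib]
    exact Finset.sum_congr rfl fun i _ => by ring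
  rw [e] at h
  refine h.trans (le_of_eq ?_)
  exact Finset.sum_congr rfl fun i _ => by ring

/-- Abstract upper trace inequality. -/
lemma upper {I J : Type*} [Fintype I] [Fintype J] (m : I → J → ℝ) (hm : ∀ i j, 0 ≤ m i j)
    (hm1 : ∀ j, ∑ i, m i j = 1) (hm2 : ∀ i, ∑ j, m i j ≤ 1) (l : I → ℝ) (a : J → ℝ) (k : ℝ)
    (hl : ∀ i, ∑ j, a j * m i j + k * (1 - ∑ j, m i j) ≤ l i) {t : ℝ} (ht : 0 ≤ t) :
    ∑ i, Real.exp (-(t * l i)) * ∑ j, m i j ≤
      ∑ j, Real.exp (-(t * a j)) + Fintype.card J * Real.exp (-(t * k)) := by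
  set g : ℝ → ℝ := fun x => max (Real.exp (-(t * x)) - Real.exp (-(t * k))) 0 with hg
  have hgc : ConvexOn ℝ Set.univ g := by
    have h1 : ConvexOn ℝ Set.univ (fun x : ℝ => Real.exp (-(t * x))) := by
      have := convexOn_exp.comp_linearMap (LinearMap.mulLeft ℝ (-t))
      simpa [Function.comp_def] using this
    have h2 : ConvexOn ℝ Set.univ (fun x : ℝ => Real.exp (-(t * x)) - Real.exp (-(t * k))) :=
      h1.sub (concaveOn_const _ convex_univ)
    exact h2.sup (convexOn_const 0 convex_univ)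
  have hga : Antitone g := by
    intro x y hxy
    simp only [hg]
    refine max_le_max (sub_le_sub_right (Real.exp_le_exp.mpr ?_) _) le_rfl
    nlinarith
  have hgk : g k = 0 := by simp [hg]
  have hg0 : ∀ x, 0 ≤ g x := fun x => le_max_right _ _
  have hge : ∀ x, g x ≤ Real.exp (-(t * x)) := fun x =>
    max_le (by linarith [Real.exp_pos (-(t * k))]) (Real.exp_pos _).le
  have hge' : ∀ x, Real.exp (-(t * x)) ≤ g x + Real.exp (-(t * k)) := fun x => by
    have := le_max_left (Real.exp (-(t * x)) - Real.exp (-(t * k))) 0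
    simp only [hg]; linarith
  have hM0 : ∀ i, 0 ≤ ∑ j, m i j := fun i => Finset.sum_nonneg fun j _ => hm i j
  -- Jensen for g
  have hJ : ∀ i, g (l i) ≤ ∑ j, m i j * g (a j) := by
    intro i
    refine (hga (hl i)).trans ?_
    have h := hgc.map_sum_le (t := (Finset.univ : Finset (Option J)))
      (w := fun o => o.elim (1 - ∑ j, m i j) (fun j => m i j))
      (p := fun o => o.elim k (fun j => a j))
      (fun o _ => by cases o with
        | none => exact sub_nonneg.mpr (hm2 i)
        | some j => exact hm i j)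
      (by rw [Fintype.sum_option]; simp) (fun _ _ => Set.mem_univ _)
    simp only [Fintype.sum_option, Option.elim, smul_eq_mul, hgk, mul_zero, zero_add] at h
    refine le_trans (le_of_eq ?_) h
    congr 1
    rw [add_comm]
    congr 1
    · ring
    · exact Finset.sum_congr rfl fun j _ => by ring
  have hsumM : ∑ i, ∑ j, m i j = Fintype.card J := by
    rw [Finset.sum_comm]; simp [hm1]
  calc ∑ i, Real.exp (-(t * l i)) * ∑ j, m i j
      ≤ ∑ i, (g (l i) + Real.exp (-(t * k)) * ∑ j, m i j) := by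
        refine Finset.sum_le_sum fun i _ => ?_
        calc Real.exp (-(t * l i)) * ∑ j, m i j ≤ (g (l i) + Real.exp (-(t * k))) * ∑ j, m i j :=
              mul_le_mul_of_nonneg_right (hge' _) (hM0 i)
          _ = g (l i) * ∑ j, m i j + Real.exp (-(t * k)) * ∑ j, m i j := by ring
          _ ≤ _ := by
              have := mul_le_of_le_one_right (hg0 (l i)) (hm2 i)
              linarith
    _ = ∑ i, g (l i) + Real.exp (-(t * k)) * Fintype.card J := by
        rw [Finset.sum_add_distrib, ← Finset.mul_sum, hsumM]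
    _ ≤ ∑ i, ∑ j, m i j * g (a j) + Real.exp (-(t * k)) * Fintype.card J := by
        have := Finset.sum_le_sum fun i (_ : i ∈ (Finset.univ : Finset I)) => hJ i
        linarith
    _ = ∑ j, g (a j) + Real.exp (-(t * k)) * Fintype.card J := by
        rw [Finset.sum_comm]
        simp_rw [← Finset.sum_mul, hm1, one_mul]
    _ ≤ ∑ j, Real.exp (-(t * a j)) + Fintype.card J * Real.exp (-(t * k)) := by
        have := Finset.sum_le_sum fun j (_ : j ∈ (Finset.univ : Finset J)) => hge (a j)
        linarith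

end Pool.Agent.Hhelper95.Spectral
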