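import Mathlib

/-!
# Exponential semigroups on `S → ℝ` for finite `S`

Positivity, contraction, comparison and intertwining facts.
-/

open Filter Topology

namespace Pool.Agent.Hhelper95.Sg

variable {S : Type*} [Fintype S]

/-- The semigroup `exp (t A)`. -/
noncomputable def sg (A : (S → ℝ) →L[ℝ] (S → ℝ)) (t : ℝ) : (S → ℝ) →L[ℝ] (S → ℝ) :=
  NormedSpace.exp (t • A)

lemma sg_zero (A : (S → ℝ) →L[ℝ] (S → ℝ)) (c : S → ℝ) : sg A 0 c = c := by
  simp [sg]

lemma hasDerivAt_sg (A : (S → ℝ) →L[ℝ] (S → ℝ)) (t : ℝ) :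
    HasDerivAt (fun t => sg A t) (sg A t * A) t :=
  hasDerivAt_exp_smul_const A t

lemma hasDerivAt_sg' (A : (S → ℝ) →L[ℝ] (S → ℝ)) (t : ℝ) :
    HasDerivAt (fun t => sg A t) (A * sg A t) t :=
  hasDerivAt_exp_smul_const' A t

lemma sg_comm (A : (S → ℝ) →L[ℝ] (S → ℝ)) (t : ℝ) (c : S → ℝ) :
    A (sg A t c) = sg A t (A c) := by
  have h := (hasDerivAt_sg A t).unique (hasDerivAt_sg' A t)
  have := congrArg (fun B : (S → ℝ) →L[ℝ] (S → ℝ) => B c) h
  simpa using this.symm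

lemma hasDerivAt_sg_apply (A : (S → ℝ) →L[ℝ] (S → ℝ)) (t : ℝ) (c : S → ℝ) :
    HasDerivAt (fun t => sg A t c) (sg A t (A c)) t := by
  have := (hasDerivAt_sg A t).clm_apply (hasDerivAt_const t c)
  simpa using this

/-- derivative of `s ↦ exp((t-s)A) (v s)`. -/
lemma hasDerivWithinAt_sg_sub (A : (S → ℝ) →L[ℝ] (S → ℝ)) (t s : ℝ) {v : ℝ → S → ℝ} {v' : S → ℝ}
    {I : Set ℝ} (hv : HasDerivWithinAt v v' I s) :
    HasDerivWithinAt (fun s => sg A (t - s) (v s)) (sg A (t - s) (v' - A (v s))) I s := by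
  have h1 : HasDerivWithinAt (fun s : ℝ => t - s) (-1) I s := by
    simpa using (hasDerivWithinAt_id s I).const_sub t
  have h2 : HasDerivWithinAt (fun s => sg A (t - s)) ((-1 : ℝ) • (sg A (t - s) * A)) I s :=
    (hasDerivAt_sg A (t - s)).scomp_hasDerivWithinAt s h1
  have h3 := h2.clm_apply hv
  refine h3.congr_deriv ?_
  rw [map_sub]
  have : ((-1 : ℝ) • (sg A (t - s) * A)) (v s) = - (sg A (t - s) (A (v s))) := by
    ext i; simp
  rw [this]
  abel

/-- Positivity of the semigroup. -/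
lemma sg_nonneg (A : (S → ℝ) →L[ℝ] (S → ℝ)) (γ : ℝ)
    (hA : ∀ c : S → ℝ, 0 ≤ c → 0 ≤ A c + γ • c) {t : ℝ} (ht : 0 ≤ t) {c : S → ℝ} (hc : 0 ≤ c) :
    0 ≤ sg A t c := by
  set B : (S → ℝ) →L[ℝ] (S → ℝ) := t • (A + γ • 1) with hB
  have hBc : ∀ c : S → ℝ, 0 ≤ c → 0 ≤ B c := by
    intro c hc
    have := smul_nonneg ht (hA c hc)
    simpa [hB] using this
  have hpow : ∀ n : ℕ, ∀ c : S → ℝ, 0 ≤ c → 0 ≤ (B ^ n) c := by
    intro n
    induction n with
    | zero => intro c hc; simpa using hc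
    | succ n ih =>
      intro c hc
      rw [pow_succ]
      exact ih _ (hBc c hc)
  have hexp : 0 ≤ NormedSpace.exp B c := by
    have h1 := NormedSpace.exp_series_hasSum_exp' (𝕂 := ℝ) B
    have h2 : HasSum (fun n : ℕ => ((n.factorial : ℝ)⁻¹ • B ^ n) c) (NormedSpace.exp B c) :=
      h1.mapL (ContinuousLinearMap.apply ℝ (S → ℝ) c)
    intro i
    have h3 : HasSum (fun n : ℕ => (((n.factorial : ℝ)⁻¹ • B ^ n) c) i) (NormedSpace.exp B c i) :=
      (Pi.hasSum.mp h2) i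
    refine h3.nonneg fun n => ?_
    have := hpow n c hc i
    have e : (((n.factorial : ℝ)⁻¹ • B ^ n) c) i = (n.factorial : ℝ)⁻¹ * (B ^ n) c i := by simp
    rw [e]
    exact mul_nonneg (by positivity) this
  have hsplit : sg A t = Real.exp (-(t * γ)) • NormedSpace.exp B := by
    have h1 : t • A = (-(t * γ)) • (1 : (S → ℝ) →L[ℝ] (S → ℝ)) + B := by
      rw [hB]; ext c i; simp; ring
    have hcomm : Commute ((-(t * γ)) • (1 : (S → ℝ) →L[ℝ] (S → ℝ))) B :=
      (Commute.one_left B).smul_left _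
    unfold sg
    let _inst : NormedAlgebra ℚ ((S → ℝ) →L[ℝ] (S → ℝ)) := NormedAlgebra.restrictScalars ℚ ℝ _
    rw [h1, NormedSpace.exp_add_of_commute hcomm]
    have h2 : NormedSpace.exp ((-(t * γ)) • (1 : (S → ℝ) →L[ℝ] (S → ℝ))) =
        Real.exp (-(t * γ)) • (1 : (S → ℝ) →L[ℝ] (S → ℝ)) := by
      have := NormedSpace.algebraMap_exp_comm (𝕂 := ℝ) (𝔸 := (S → ℝ) →L[ℝ] (S → ℝ)) (-(t * γ))
      rw [Algebra.algebraMap_eq_smul_one, Algebra.algebraMap_eq_smul_one, ← Real.exp_eq_exp_ℝ] at this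
      exact this.symm
    rw [h2, smul_mul_assoc, one_mul]
  rw [hsplit]
  have e : (Real.exp (-(t * γ)) • NormedSpace.exp B) c = Real.exp (-(t * γ)) • NormedSpace.exp B c := rfl
  rw [e]
  exact smul_nonneg (Real.exp_pos _).le hexp

/-! ### Mean value helpers -/

lemma le_of_deriv {f f' : ℝ → ℝ} {T K : ℝ} (hT : 0 ≤ T)
    (hf : ∀ s ∈ Set.Icc 0 T, HasDerivWithinAt f (f' s) (Set.Ici 0) s)
    (hK : ∀ s ∈ Set.Icc 0 T, f' s ≤ K) : f T ≤ f 0 + K * T := by
  have h := image_le_of_deriv_right_le_deriv_boundary (f := f) (f' := f') (a := 0) (b := T)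
    (B := fun x => f 0 + K * x) (B' := fun _ => K)
    (fun x hx => ((hf x hx).continuousWithinAt.mono Set.Icc_subset_Ici_self))
    (fun x hx => (hf x ⟨hx.1, hx.2.le⟩).mono (Set.Ici_subset_Ici.mpr hx.1))
    (by simp) (by fun_prop)
    (fun x _ => by
      have := ((hasDerivAt_id x).const_mul K).const_add (f 0)
      simpa using this.hasDerivWithinAt)
    (fun x hx => hK x ⟨hx.1, hx.2.le⟩)
  exact h ⟨hT, le_refl _⟩

lemma ge_of_deriv {f f' : ℝ → ℝ} {T K : ℝ} (hT : 0 ≤ T)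
    (hf : ∀ s ∈ Set.Icc 0 T, HasDerivWithinAt f (f' s) (Set.Ici 0) s)
    (hK : ∀ s ∈ Set.Icc 0 T, K ≤ f' s) : f 0 + K * T ≤ f T := by
  have h := le_of_deriv (f := fun s => - f s) (f' := fun s => - f' s) (K := -K) hT
    (fun s hs => (hf s hs).fun_neg) (fun s hs => neg_le_neg (hK s hs))
  linarith

/-- `exp(tA) 1 ≤ 1` if `A 1 ≤ 0`. -/
lemma sg_le_one (A : (S → ℝ) →L[ℝ] (S → ℝ)) (γ : ℝ)
    (hA : ∀ c : S → ℝ, 0 ≤ c → 0 ≤ A c + γ • c) (hA1 : A (fun _ => 1) ≤ 0) {t : ℝ} (ht : 0 ≤ t) :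
    sg A t (fun _ => 1) ≤ fun _ => 1 := by
  intro i
  have h := le_of_deriv (f := fun s => sg A s (fun _ => 1) i)
    (f' := fun s => sg A s (A (fun _ => 1)) i) (K := 0) ht
    (fun s _ => ((hasDerivAt_pi.mp (hasDerivAt_sg_apply A s (fun _ => 1))) i).hasDerivWithinAt)
    (fun s hs => by
      have := sg_nonneg A γ hA hs.1 (c := - A (fun _ => 1)) (by simpa using hA1)
      have := this i
      simp only [map_neg, Pi.neg_apply, Pi.zero_apply] at this
      linarith)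
  simp only [sg_zero] at h
  linarith

lemma sg_mono (A : (S → ℝ) →L[ℝ] (S → ℝ)) (γ : ℝ)
    (hA : ∀ c : S → ℝ, 0 ≤ c → 0 ≤ A c + γ • c) {t : ℝ} (ht : 0 ≤ t) {c d : S → ℝ} (hcd : c ≤ d) :
    sg A t c ≤ sg A t d := by
  have := sg_nonneg A γ hA ht (c := d - c) (by simpa using hcd)
  rw [map_sub] at this
  simpa using this

/-- Comparison principle: a supersolution starting nonnegative stays nonnegative. -/
lemma comparison (A : (S → ℝ) →L[ℝ] (S → ℝ)) (γ : ℝ)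
    (hA : ∀ c : S → ℝ, 0 ≤ c → 0 ≤ A c + γ • c) {T : ℝ} (hT : 0 ≤ T) {v v' : ℝ → S → ℝ}
    (hv : ∀ s ∈ Set.Icc 0 T, HasDerivWithinAt v (v' s) (Set.Ici 0) s)
    (hsup : ∀ s ∈ Set.Icc 0 T, A (v s) ≤ v' s) (h0 : 0 ≤ v 0) : 0 ≤ v T := by
  intro i
  have h := ge_of_deriv (f := fun s => sg A (T - s) (v s) i)
    (f' := fun s => sg A (T - s) (v' s - A (v s)) i) (K := 0) hT
    (fun s hs => (hasDerivWithinAt_pi.mp (hasDerivWithinAt_sg_sub A T s (hv s hs))) i)
    (fun s hs => sg_nonneg A γ hA (sub_nonneg.mpr hs.2) (sub_nonneg.mpr (hsup s hs)) i)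
  simp only [sub_zero, sub_self, sg_zero] at h
  have h2 := sg_nonneg A γ hA hT h0 i
  simp only [Pi.zero_apply] at h2 ⊢
  linarith

/-- Intertwining. -/
lemma sg_intertwine {S' : Type*} [Fintype S'] (A : (S → ℝ) →L[ℝ] (S → ℝ))
    (A' : (S' → ℝ) →L[ℝ] (S' → ℝ)) (L : (S → ℝ) →L[ℝ] (S' → ℝ))
    (h : ∀ c, L (A c) = A' (L c)) (t : ℝ) (c : S → ℝ) :
    L (sg A t c) = sg A' t (L c) := by
  have hd : ∀ s, HasDerivAt (fun s => sg A' (t - s) (L (sg A s c))) 0 s := by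
    intro s
    have h1 : HasDerivAt (fun s => L (sg A s c)) (L (sg A s (A c))) s :=
      L.hasFDerivAt.comp_hasDerivAt s (hasDerivAt_sg_apply A s c)
    have h2 := hasDerivWithinAt_sg_sub A' t s (I := Set.univ) h1.hasDerivWithinAt
    rw [hasDerivWithinAt_univ] at h2
    refine h2.congr_deriv ?_
    rw [← h, sg_comm, sub_self, map_zero]
  have := is_const_of_deriv_eq_zero (f := fun s => sg A' (t - s) (L (sg A s c)))
    (fun s => (hd s).differentiableAt) (fun s => (hd s).deriv) t 0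
  simpa [sg_zero] using this

lemma sg_eigen (A : (S → ℝ) →L[ℝ] (S → ℝ)) {b : S → ℝ} {l : ℝ} (h : A b = l • b) (t : ℝ) :
    sg A t b = Real.exp (t * l) • b := by
  have hd : ∀ s, HasDerivAt (fun s => Real.exp (-(s * l)) • sg A s b) 0 s := by
    intro s
    have h1 : HasDerivAt (fun s : ℝ => Real.exp (-(s * l))) (Real.exp (-(s * l)) * (-l)) s := by
      have : HasDerivAt (fun s : ℝ => -(s * l)) (-l) s := by
        simpa using ((hasDerivAt_id s).mul_const l).fun_neg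
      exact this.exp
    have h2 := h1.smul (hasDerivAt_sg_apply A s b)
    refine h2.congr_deriv ?_
    rw [h, map_smul, smul_smul, ← add_smul]
    have : Real.exp (-(s * l)) * l + Real.exp (-(s * l)) * -l = 0 := by ring
    rw [this, zero_smul]
  have := is_const_of_deriv_eq_zero (f := fun s => Real.exp (-(s * l)) • sg A s b)
    (fun s => (hd s).differentiableAt) (fun s => (hd s).deriv) t 0
  simp only [zero_mul, neg_zero, Real.exp_zero, one_smul, sg_zero] at this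
  calc sg A t b = Real.exp (t * l) • (Real.exp (-(t * l)) • sg A t b) := by
        rw [smul_smul, ← Real.exp_add]; simp
    _ = _ := by rw [this]

end Pool.Agent.Hhelper95.Sg
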